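import Pool.Agent.L0h38.MON.Stm

/-! Module COD of the project MON: every finitely presented group has a code. -/

set_option autoImplicit false

namespace Pool.Agent.L0h41.MON

open Pool.Agent.L0h38.MON Pool.Agent.Q223.IS

theorem COD : S_COD := by
  intro G _ _
  obtain ⟨n, s, hs, ⟨e⟩⟩ := Group.IsFinitelyPresented.exists_mulEquiv_presentedGroup (G := G)
  obtain ⟨b, hb⟩ : ∃ b : ℕ × List Wd, b = (n, hs.toFinset.toList.map fun g => g.toWord.map fun q => (q.1.val, q.2)) :=
    ⟨_, rfl⟩
  have hcut : ∀ g : FreeGroup (Fin n), FreeGroup.mk ((g.toWord.map fun q : Fin n × Bool => ((q.1.val, q.2) : ℕ × Bool)).filterMap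
      (fun q => if h : q.1 < n then some ((⟨q.1, h⟩ : Fin n), q.2) else none)) = g := by
    intro g
    rw [List.filterMap_map]
    have h1 : ((fun q : ℕ × Bool => if h : q.1 < n then some ((⟨q.1, h⟩ : Fin n), q.2) else none) ∘
        fun q : Fin n × Bool => ((q.1.val, q.2) : ℕ × Bool)) = some := by
      funext q
      simp
    rw [h1, List.filterMap_some]
    exact FreeGroup.mk_toWord
  refine ⟨b, ?_⟩
  subst hb
  have hrel : relSet (n, hs.toFinset.toList.map fun g => g.toWord.map fun q : Fin n × Bool => ((q.1.val, q.2) : ℕ × Bool)) = s := by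
    ext g
    constructor
    · rintro ⟨w, hw, rfl⟩
      obtain ⟨g', hg', rfl⟩ := List.mem_map.1 hw
      rw [hcut g']
      exact hs.mem_toFinset.1 (Finset.mem_toList.1 hg')
    · intro hg
      exact ⟨_, List.mem_map.2 ⟨g, Finset.mem_toList.2 (hs.mem_toFinset.2 hg), rfl⟩, (hcut g).symm⟩
  show Nonempty (PresentedGroup (relSet _) ≃* G)
  rw [hrel]
  exact ⟨e.symm⟩

end Pool.Agent.L0h41.MON
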