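import Pool.Agent.L0h38.MON.Stm

/-! Module FCI of the project MON: finitely many classes in normal subgroups of finite index. -/

set_option autoImplicit false

namespace Pool.Agent.L0h41.MON

open Pool.Agent.L0h38.MON

theorem FCI : S_FCI := by
  classical
  intro G _ hfin M hM hindex
  have hq : Finite (G ⧸ M) := inferInstance
  obtain ⟨F, hF⟩ : ∃ F : ConjClasses G × (G ⧸ M) → ConjClasses M, F = fun z =>
    if h : (Quotient.out z.2)⁻¹ * Quotient.out z.1 * Quotient.out z.2 ∈ M then ConjClasses.mk ⟨_, h⟩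
      else ConjClasses.mk 1 := ⟨_, rfl⟩
  apply Finite.of_surjective F
  intro C
  obtain ⟨m, rfl⟩ := ConjClasses.exists_rep C
  obtain ⟨r, hr⟩ : ∃ r : G, r = Quotient.out (ConjClasses.mk (m : G)) := ⟨_, rfl⟩
  have h1 : ConjClasses.mk r = ConjClasses.mk (m : G) := by
    rw [hr]
    exact Quotient.out_eq _
  obtain ⟨g, hg⟩ := isConj_iff.1 (ConjClasses.mk_eq_mk_iff_isConj.1 h1)
  obtain ⟨σ, hσ⟩ : ∃ σ : G, σ = Quotient.out ((g⁻¹ : G) : G ⧸ M) := ⟨_, rfl⟩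
  have h2 : ((σ : G) : G ⧸ M) = ((g⁻¹ : G) : G ⧸ M) := by
    rw [hσ]
    exact Quotient.out_eq _
  have hk : σ⁻¹ * g⁻¹ ∈ M := QuotientGroup.eq.1 h2
  have h3 : σ⁻¹ * r * σ = (σ⁻¹ * g⁻¹) * m * (σ⁻¹ * g⁻¹)⁻¹ := by
    rw [← hg]
    group
  have h4 : σ⁻¹ * r * σ ∈ M := by
    rw [h3]
    exact M.mul_mem (M.mul_mem hk m.2) (M.inv_mem hk)
  refine ⟨(ConjClasses.mk (m : G), ((g⁻¹ : G) : G ⧸ M)), ?_⟩
  rw [hF]
  show (if h : (Quotient.out ((g⁻¹ : G) : G ⧸ M))⁻¹ * Quotient.out (ConjClasses.mk (m : G)) *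
    Quotient.out ((g⁻¹ : G) : G ⧸ M) ∈ M then ConjClasses.mk (⟨_, h⟩ : M) else ConjClasses.mk 1) = ConjClasses.mk m
  rw [← hσ, ← hr, dif_pos h4]
  apply ConjClasses.mk_eq_mk_iff_isConj.2
  apply IsConj.symm
  rw [isConj_iff]
  refine ⟨⟨σ⁻¹ * g⁻¹, hk⟩, ?_⟩
  apply Subtype.ext
  exact h3.symm

end Pool.Agent.L0h41.MON
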